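import Pool.Agent.Helper27.CW.Spec
import Pool.Agent.Helper99.CD.P5

/-!
# CW, part Q15b: rigidity of pairs of large mass, small distance
-/

set_option autoImplicit false

namespace Helper61.CW.Q15b

open Finset Function Helper27.CD Helper27.CD.P5

variable {ι : Type} [Fintype ι] [DecidableEq ι]

lemma sum_W_ne (p : ℝ) (u : ι → ZMod 3) (k : ι) :
    ∑ z ∈ (univ : Finset (ι → ZMod 3)).filter (fun z => z k ≠ u k), W p z u = p := by
  have hstep : ∀ z : ι → ZMod 3, (if z k ≠ u k then W p z u else 0) =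
      ∏ i, (if z i = u i then (if i = k then 0 else 1 - p) else p / 2) := by
    intro z
    by_cases hz : z k = u k
    · rw [if_neg (by simpa using hz)]
      symm
      apply prod_eq_zero (mem_univ k)
      simp [hz]
    · rw [if_pos hz]
      unfold W
      apply prod_congr rfl
      intro i _
      by_cases hik : i = k
      · rw [hik, if_neg hz, if_neg hz]
      · rw [if_neg hik]
  rw [sum_filter, sum_congr rfl (fun z _ => hstep z)]
  have h := Finset.prod_univ_sum (fun _ : ι => (univ : Finset (ZMod 3)))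
    (fun i s => if s = u i then (if i = k then 0 else 1 - p) else p / 2)
  rw [Fintype.piFinset_univ] at h
  rw [← h]
  have hi : ∀ i : ι, (∑ s : ZMod 3, if s = u i then (if i = k then 0 else 1 - p) else p / 2) =
      if i = k then p else 1 := by
    intro i
    generalize u i = v
    have h1 : ∀ s : ZMod 3, (if s = v then (if i = k then 0 else 1 - p) else p / 2) =
        p / 2 + (if s = v then (if i = k then 0 else 1 - p) - p / 2 else 0) := by
      intro s
      split_ifs <;> ring
    rw [sum_congr rfl (fun s _ => h1 s), sum_add_distrib, sum_const, card_univ, ZMod.card,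
      sum_ite_eq' univ v, if_pos (mem_univ v)]
    simp only [nsmul_eq_mul]
    push_cast
    split_ifs <;> ring
  rw [prod_congr rfl (fun i _ => hi i)]
  simp

lemma e_tri : ∀ x y z : ZMod 3, e x z ≤ e x y + e y z := by
  intro x y z
  unfold e
  by_cases h1 : x = y
  · subst h1
    simp
  · by_cases h2 : x = z
    · subst h2
      simp only [ne_eq, not_true_eq_false, if_false]
      split_ifs <;> norm_num
    · simp only [ne_eq, h1, h2, not_false_eq_true, if_true]
      split_ifs <;> norm_num

lemma claim {p : ℝ} (hp0 : 0 < p) (hp1 : p < 1) {A B : Finset (ι → ZMod 3)} {δ : ℕ}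
    (h : ∀ a ∈ A, ∀ b ∈ B, hammingDist a b = δ)
    (I : Finset ι) (u : ι → ZMod 3)
    (hm : 2 * (δ : ℝ) * p < ∑ a ∈ A.filter (fun a => ∀ i, i ∉ I → a i = u i),
        ∑ b ∈ B.filter (fun b => ∀ i ∈ I, b i = u i), W p a b) :
    ∀ b' ∈ B, ∀ a₀ ∈ A, (∀ i, i ∉ I → a₀ i = u i) → ∀ k₀ ∈ I, b' k₀ ≠ u k₀ → a₀ k₀ = u k₀ := by
  intro b' hb' a₀ ha₀ ha₀u k₀ hk₀ hbk₀
  by_contra hak₀
  set Ag := A.filter (fun a => ∀ i, i ∉ I → a i = u i) with hAg
  set Bg := B.filter (fun b => ∀ i ∈ I, b i = u i) with hBg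
  have ha₀g : a₀ ∈ Ag := mem_filter.2 ⟨ha₀, ha₀u⟩
  obtain ⟨b₁, hb₁⟩ : Bg.Nonempty := by
    rw [nonempty_iff_ne_empty]
    intro he
    rw [he] at hm
    simp only [sum_empty, sum_const_zero] at hm
    have : 0 ≤ 2 * (δ : ℝ) * p := by positivity
    linarith
  set D := I.filter (fun k => b' k ≠ u k) with hD
  set S : (ι → ZMod 3) → ℤ := fun z => ∑ k ∈ D, (e (z k) (u k) - e (z k) (b' k)) with hS
  -- `D` is small
  have hDcard : (D.card : ℤ) ≤ 2 * δ := by
    have hb₁' := mem_filter.1 hb₁
    have h1 : (D.card : ℤ) = ∑ k ∈ D, e (u k) (b' k) := by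
      rw [card_eq_sum_ones]
      push_cast
      apply sum_congr rfl
      intro k hk
      rw [e_of_ne (mem_filter.1 hk).2.symm]
    have h2 : ∑ k ∈ D, e (u k) (b' k) ≤ ∑ k ∈ D, (e (a₀ k) (b₁ k) + e (a₀ k) (b' k)) := by
      apply sum_le_sum
      intro k hk
      rw [hb₁'.2 k (mem_filter.1 hk).1]
      have := e_tri (u k) (a₀ k) (b' k)
      rw [e_comm (u k) (a₀ k)] at this
      exact this
    have h3 : ∑ k ∈ D, (e (a₀ k) (b₁ k) + e (a₀ k) (b' k)) ≤
        ∑ k, (e (a₀ k) (b₁ k) + e (a₀ k) (b' k)) := by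
      apply sum_le_sum_of_subset_of_nonneg (subset_univ _)
      intro k _ _
      have := e_nonneg (a₀ k) (b₁ k)
      have := e_nonneg (a₀ k) (b' k)
      linarith
    have h4 : ∑ k, (e (a₀ k) (b₁ k) + e (a₀ k) (b' k)) = 2 * (δ : ℤ) := by
      rw [sum_add_distrib, ← dist_eq, ← dist_eq, h a₀ ha₀ b₁ hb₁'.1, h a₀ ha₀ b' hb']
      ring
    linarith
  have hconst : ∀ a ∈ Ag, S a = S a₀ := by
    intro a ha
    have ha' := mem_filter.1 ha
    have hb₁' := mem_filter.1 hb₁
    have h1 : hammingDist a b₁ + hammingDist a₀ b' = hammingDist a b' + hammingDist a₀ b₁ := by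
      rw [h a ha'.1 b₁ hb₁'.1, h a₀ ha₀ b' hb', h a ha'.1 b' hb', h a₀ ha₀ b₁ hb₁'.1]
    have h2 : (hammingDist a b₁ : ℤ) + hammingDist a₀ b' = hammingDist a b' + hammingDist a₀ b₁ := by
      exact_mod_cast h1
    rw [dist_eq, dist_eq, dist_eq, dist_eq, ← sum_add_distrib, ← sum_add_distrib, ← sub_eq_zero,
      ← sum_sub_distrib] at h2
    have h3 : ∑ k, (e (a k) (b₁ k) + e (a₀ k) (b' k) - (e (a k) (b' k) + e (a₀ k) (b₁ k))) =
        ∑ k ∈ D, (e (a k) (b₁ k) + e (a₀ k) (b' k) - (e (a k) (b' k) + e (a₀ k) (b₁ k))) := by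
      symm
      apply sum_subset (subset_univ _)
      intro k _ hk
      by_cases hkI : k ∈ I
      · have : b' k = u k := by
          by_contra hne
          exact hk (mem_filter.2 ⟨hkI, hne⟩)
        rw [this, hb₁'.2 k hkI]
        ring
      · rw [ha'.2 k hkI, ha₀u k hkI]
        ring
    rw [h3] at h2
    have h4 : S a - S a₀ = 0 := by
      rw [hS, ← h2]
      simp only
      rw [← sum_sub_distrib]
      apply sum_congr rfl
      intro k hk
      rw [hb₁'.2 k (mem_filter.1 hk).1]
      ring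
    linarith
  have hS₀ : -(D.card : ℤ) < S a₀ := by
    rw [hS]
    simp only
    have : -(D.card : ℤ) = ∑ k ∈ D, (-1 : ℤ) := by simp
    rw [this]
    apply sum_lt_sum
    · intro k _
      have h1 := e_nonneg (a₀ k) (u k)
      have h2 := e_le_one (a₀ k) (b' k)
      linarith
    · refine ⟨k₀, mem_filter.2 ⟨hk₀, hbk₀⟩, ?_⟩
      rw [e_of_ne hak₀]
      have h2 := e_le_one (a₀ k₀) (b' k₀)
      linarith
  have hEne : ∀ z, S z = S a₀ → ∃ k ∈ D, z k ≠ u k := by
    intro z hz
    by_contra! he
    have h1 : S z = -(D.card : ℤ) := by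
      rw [hS]
      simp only
      have : -(D.card : ℤ) = ∑ k ∈ D, (-1 : ℤ) := by simp
      rw [this]
      apply sum_congr rfl
      intro k hk
      rw [he k hk, e_self, e_of_ne (mem_filter.1 hk).2.symm]
      ring
    linarith
  -- the set `Z`
  set ζ : (ι → ZMod 3) × (ι → ZMod 3) → (ι → ZMod 3) :=
    fun ab k => if k ∈ I then ab.1 k else ab.2 k with hζ
  have hζinj : Set.InjOn ζ (Ag ×ˢ Bg : Finset _) := by
    rintro ⟨a, b⟩ hab ⟨a', b'⟩ hab' heq
    rw [mem_coe, mem_product] at hab hab'
    have h1 := mem_filter.1 hab.1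
    have h2 := mem_filter.1 hab.2
    have h3 := mem_filter.1 hab'.1
    have h4 := mem_filter.1 hab'.2
    simp only at h1 h2 h3 h4
    ext k
    · by_cases hk : k ∈ I
      · have := congrFun heq k
        rw [hζ] at this
        simp only [hk, if_true] at this
        exact this
      · exact (h1.2 k hk).trans (h3.2 k hk).symm
    · by_cases hk : k ∈ I
      · exact (h2.2 k hk).trans (h4.2 k hk).symm
      · have := congrFun heq k
        rw [hζ] at this
        simp only [hk, if_false] at this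
        exact this
  have hmass : ∑ z ∈ (Ag ×ˢ Bg).image ζ, W p z u = ∑ a ∈ Ag, ∑ b ∈ Bg, W p a b := by
    rw [sum_image hζinj, sum_product]
    apply sum_congr rfl
    intro a ha
    apply sum_congr rfl
    intro b hb
    have h1 := mem_filter.1 ha
    have h2 := mem_filter.1 hb
    unfold W
    apply prod_congr rfl
    intro k _
    rw [hζ]
    by_cases hk : k ∈ I
    · simp only [hk, if_true]
      rw [h2.2 k hk]
    · simp only [hk, if_false]
      rw [h1.2 k hk]
      simp only [eq_comm]
  have hZS : ∀ z ∈ (Ag ×ˢ Bg).image ζ, S z = S a₀ := by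
    intro z hz
    obtain ⟨⟨a, b⟩, hab, rfl⟩ := mem_image.1 hz
    rw [← hconst a (mem_product.1 hab).1]
    rw [hS]
    simp only
    apply sum_congr rfl
    intro k hk
    have : ζ (a, b) k = a k := by
      rw [hζ]
      simp only [(mem_filter.1 hk).1, if_true]
    rw [this]
  have hfin : ∑ z ∈ (Ag ×ˢ Bg).image ζ, W p z u ≤ D.card * p := by
    calc ∑ z ∈ (Ag ×ˢ Bg).image ζ, W p z u
        ≤ ∑ z ∈ (Ag ×ˢ Bg).image ζ, ∑ k ∈ D, (if z k ≠ u k then W p z u else 0) := by
          apply sum_le_sum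
          intro z hz
          obtain ⟨k, hkD, hk⟩ := hEne z (hZS z hz)
          have h7 : (if z k ≠ u k then W p z u else 0) ≤
              ∑ k ∈ D, (if z k ≠ u k then W p z u else 0) := by
            apply single_le_sum (f := fun k => if z k ≠ u k then W p z u else 0) _ hkD
            intro k _
            split_ifs
            · exact (W_pos hp0 hp1 z u).le
            · exact le_rfl
          rw [if_pos hk] at h7
          exact h7
      _ ≤ ∑ z, ∑ k ∈ D, (if z k ≠ u k then W p z u else 0) := by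
          apply sum_le_sum_of_subset_of_nonneg (subset_univ _)
          intro z _ _
          apply sum_nonneg
          intro k _
          split_ifs
          · exact (W_pos hp0 hp1 z u).le
          · exact le_rfl
      _ = ∑ k ∈ D, ∑ z ∈ (univ : Finset (ι → ZMod 3)).filter (fun z => z k ≠ u k), W p z u := by
          rw [sum_comm]
          apply sum_congr rfl
          intro k _
          rw [sum_filter]
      _ = D.card * p := by
          rw [sum_congr rfl (fun k _ => sum_W_ne p u k), sum_const, nsmul_eq_mul]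
  rw [hmass] at hfin
  have h5 : (D.card : ℝ) ≤ 2 * δ := by exact_mod_cast hDcard
  have h6 : (D.card : ℝ) * p ≤ 2 * δ * p := mul_le_mul_of_nonneg_right h5 hp0.le
  linarith

theorem rigid_small_thm : Helper27.CW.S_rigid_small := by
  intro ι _ _ p A B δ hp0 hp1 h I u hm i
  have c1 := claim hp0 hp1 h I u hm
  have h' : ∀ b ∈ B, ∀ a ∈ A, hammingDist b a = δ := by
    intro b hb a ha
    rw [hammingDist_comm]
    exact h a ha b hb
  have c2 := claim hp0 hp1 h' Iᶜ u (by
    rw [sum_comm] at hm
    simp only [mem_compl, not_not]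
    simpa only [W_comm p] using hm)
  have hex : ∃ a₁ : ι → ZMod 3, a₁ ∈ A.filter (fun a : ι → ZMod 3 => ∀ i, i ∉ I → a i = u i) ∧
      ∃ b₁ : ι → ZMod 3, b₁ ∈ B.filter (fun b : ι → ZMod 3 => ∀ i ∈ I, b i = u i) := by
    by_contra! hne
    have : ∑ a ∈ A.filter (fun a => ∀ i, i ∉ I → a i = u i),
        ∑ b ∈ B.filter (fun b => ∀ i ∈ I, b i = u i), W p a b = 0 := by
      apply sum_eq_zero
      intro a ha
      have : B.filter (fun b => ∀ i ∈ I, b i = u i) = ∅ := by
        rw [eq_empty_iff_forall_notMem]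
        exact hne a ha
      rw [this]
      simp
    rw [this] at hm
    have : 0 ≤ 2 * (δ : ℝ) * p := by positivity
    linarith
  obtain ⟨a₁, ha₁, b₁, hb₁⟩ := hex
  have ha₁' := mem_filter.1 ha₁
  have hb₁' := mem_filter.1 hb₁
  have key : ∀ a ∈ A, ∀ b ∈ B, ∀ k, a k = u k ∨ b k = u k := by
    intro a ha b hb
    have h1 : hammingDist a b + hammingDist a₁ b₁ = hammingDist a b₁ + hammingDist a₁ b := by
      rw [h a ha b hb, h a₁ ha₁'.1 b₁ hb₁'.1, h a ha b₁ hb₁'.1, h a₁ ha₁'.1 b hb]
    have h2 : (hammingDist a b : ℤ) + hammingDist a₁ b₁ = hammingDist a b₁ + hammingDist a₁ b := by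
      exact_mod_cast h1
    rw [dist_eq, dist_eq, dist_eq, dist_eq, ← sum_add_distrib, ← sum_add_distrib] at h2
    have hle : ∀ k, e (a k) (b k) + e (a₁ k) (b₁ k) ≤ e (a k) (b₁ k) + e (a₁ k) (b k) ∧
        (a k ≠ u k → b k ≠ u k →
          e (a k) (b k) + e (a₁ k) (b₁ k) < e (a k) (b₁ k) + e (a₁ k) (b k)) := by
      intro k
      by_cases hk : k ∈ I
      · rw [hb₁'.2 k hk]
        by_cases hbk : b k = u k
        · rw [hbk]
          exact ⟨le_rfl, fun _ h => absurd rfl h⟩
        · rw [c1 b hb a₁ ha₁'.1 ha₁'.2 k hk hbk, e_self, e_of_ne (Ne.symm hbk)]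
          have := e_le_one (a k) (b k)
          by_cases hak : a k = u k
          · exact ⟨by rw [hak, e_self, e_of_ne (Ne.symm hbk)]; norm_num, fun h => absurd hak h⟩
          · rw [e_of_ne hak]
            exact ⟨by omega, fun _ _ => by omega⟩
      · rw [ha₁'.2 k hk]
        by_cases hak : a k = u k
        · rw [hak]
          exact ⟨by omega, fun h => absurd rfl h⟩
        · rw [c2 a ha b₁ hb₁'.1 (by simpa using hb₁'.2) k (by simpa using hk) hak, e_self,
            e_of_ne hak]
          have := e_le_one (a k) (b k)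
          by_cases hbk : b k = u k
          · exact ⟨by rw [hbk, e_self, e_of_ne hak], fun _ h => absurd hbk h⟩
          · rw [e_of_ne (Ne.symm hbk)]
            exact ⟨by omega, fun _ _ => by omega⟩
    intro k
    by_contra! hne
    have := sum_lt_sum (s := univ) (fun k _ => (hle k).1) ⟨k, mem_univ k, (hle k).2 hne.1 hne.2⟩
    omega
  by_cases hA : ∀ a ∈ A, a i = u i
  · left
    intro a ha a' ha'
    rw [hA a ha, hA a' ha']
  · right
    push Not at hA
    obtain ⟨a, ha, hne⟩ := hA
    intro b hb b' hb'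
    rw [(key a ha b hb i).resolve_left hne, (key a ha b' hb' i).resolve_left hne]

end Helper61.CW.Q15b
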