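import Pool.Agent.Helper27.CW.Spec

/-!
# CW, part Q3: the box inequality for additive pairs
-/

set_option autoImplicit false

namespace Helper61.CW.Q3

open Finset Function Helper27.CD Helper27.CW

/-- indicator of being nonzero -/
def th (x : ZMod 3) : ℤ := if x = 0 then 0 else 1

set_option maxRecDepth 100000 in
lemma four : ∀ x h k h' k' : ZMod 3,
    ((((th (x + (h' + h) + (k' + k)) - th (x + h' + (k' + k))
        - (th (x + (h' + h) + k') - th (x + h' + k'))
      - (th (x + h + (k' + k)) - th (x + (k' + k)) - (th (x + h + k') - th (x + k'))))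
      - (th (x + (h' + h) + k) - th (x + h' + k) - (th (x + (h' + h)) - th (x + h'))
      - (th (x + h + k) - th (x + k) - (th (x + h) - th x))) : ℤ)) : ZMod 9)
      = 3 * ((h * h' * k * k').val : ZMod 9) := by
  decide +kernel

/-- multiplication by three as a map from `ZMod 3` to `ZMod 9` -/
def tri : ZMod 3 →+ ZMod 9 where
  toFun x := 3 * (x.val : ZMod 9)
  map_zero' := by decide
  map_add' := by decide

section

variable {ι : Type} [Fintype ι] [DecidableEq ι]

/-- contribution of the first variable -/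
def lz (I : Finset ι) (M : ι → ι → ZMod 3) (z : {i // i ∈ I} → ZMod 3) (k : ι) : ZMod 3 :=
  if h : k ∈ I then z ⟨k, h⟩ else ∑ i : {i // i ∈ I}, M k i * z i

/-- contribution of the second variable -/
def ly (I : Finset ι) (M : ι → ι → ZMod 3) (y : {l // l ∈ Iᶜ} → ZMod 3) (k : ι) : ZMod 3 :=
  if h : k ∈ I then ∑ l : {l // l ∈ Iᶜ}, M l k * y l else - y ⟨k, mem_compl.2 h⟩

omit [Fintype ι] in
lemma lz_add (I : Finset ι) (M : ι → ι → ZMod 3) (z z' : {i // i ∈ I} → ZMod 3) (k : ι) :
    lz I M (z + z') k = lz I M z k + lz I M z' k := by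
  unfold lz
  split_ifs with h
  · rfl
  · rw [← sum_add_distrib]
    exact sum_congr rfl fun i _ => by rw [Pi.add_apply]; ring

lemma ly_add (I : Finset ι) (M : ι → ι → ZMod 3) (y y' : {l // l ∈ Iᶜ} → ZMod 3) (k : ι) :
    ly I M (y + y') k = ly I M y k + ly I M y' k := by
  unfold ly
  split_ifs with h
  · rw [← sum_add_distrib]
    exact sum_congr rfl fun i _ => by rw [Pi.add_apply]; ring
  · rw [Pi.add_apply]
    ring

lemma QM_eq (I : Finset ι) (M : ι → ι → ZMod 3) (z z' : {i // i ∈ I} → ZMod 3)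
    (y y' : {l // l ∈ Iᶜ} → ZMod 3) :
    QM (blk I M) z z' y y' = ∑ k, lz I M z k * lz I M z' k * ly I M y k * ly I M y' k := by
  rw [← sum_add_sum_compl I]
  unfold QM
  congr 1
  · rw [← sum_coe_sort I]
    apply sum_congr rfl
    intro i _
    unfold lz ly blk
    simp only [i.2, dif_pos, Matrix.of_apply]
  · rw [← sum_coe_sort Iᶜ]
    apply sum_congr rfl
    intro l _
    have hl : (l : ι) ∉ I := mem_compl.1 l.2
    unfold lz ly blk
    simp only [hl, dif_neg, not_false_eq_true, Matrix.of_apply]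
    ring

/-- the distance as a function of the two variables -/
def ww (I : Finset ι) (M : ι → ι → ZMod 3) (c : ι → ZMod 3) (z : {i // i ∈ I} → ZMod 3)
    (y : {l // l ∈ Iᶜ} → ZMod 3) : ℤ := ∑ k, th (c k + lz I M z k + ly I M y k)

lemma fourth (I : Finset ι) (M : ι → ι → ZMod 3) (c : ι → ZMod 3)
    (h h' z : {i // i ∈ I} → ZMod 3) (k k' y : {l // l ∈ Iᶜ} → ZMod 3) :
    ((D2 k' (D1 h' (D2 k (D1 h (ww I M c)))) z y : ℤ) : ZMod 9)
      = 3 * ((QM (blk I M) h h' k k').val : ZMod 9) := by
  have h1 : 3 * ((QM (blk I M) h h' k k').val : ZMod 9) = tri (QM (blk I M) h h' k k') := rfl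
  rw [h1, QM_eq, map_sum]
  unfold D1 D2 ww
  simp only [← sum_sub_distrib]
  rw [Int.cast_sum]
  apply sum_congr rfl
  intro κ _
  have h2 : tri (lz I M h κ * lz I M h' κ * ly I M k κ * ly I M k' κ) =
      3 * ((lz I M h κ * lz I M h' κ * ly I M k κ * ly I M k' κ).val : ZMod 9) := rfl
  rw [h2, ← four (c κ + lz I M z κ + ly I M y κ)]
  simp only [lz_add, ly_add]
  generalize lz I M z κ = a1
  generalize lz I M h κ = a2
  generalize lz I M h' κ = a3
  generalize ly I M y κ = b1
  generalize ly I M k κ = b2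
  generalize ly I M k' κ = b3
  generalize c κ = c1
  congr 1
  ring_nf

end

theorem box_thm (hg : S_gcs) : S_box := by
  intro ι _ _ A B I M hAB hR
  have hcard : (Fintype.card ({i // i ∈ I} → ZMod 3) : ℝ) * Fintype.card ({l // l ∈ Iᶜ} → ZMod 3) =
      3 ^ Fintype.card ι := by
    rw [Fintype.card_fun, Fintype.card_fun, ZMod.card, Fintype.card_coe, Fintype.card_coe]
    push_cast
    rw [← pow_add, card_add_card_compl]
  by_cases hne : A.Nonempty ∧ B.Nonempty
  · obtain ⟨⟨a₀, ha₀⟩, b₀, hb₀⟩ := hne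
    set c : ι → ZMod 3 := fun k => a₀ k - b₀ k with hc
    set α : (ι → ZMod 3) → ({i // i ∈ I} → ZMod 3) := fun a i => a i - a₀ i with hα
    set β : (ι → ZMod 3) → ({l // l ∈ Iᶜ} → ZMod 3) := fun b l => b l - b₀ l with hβ
    have hlz : ∀ a ∈ A, ∀ k, lz I M (α a) k = a k - a₀ k := by
      intro a ha k
      unfold lz
      split_ifs with h
      · rfl
      · rw [hR.1 a ha a₀ ha₀ k h, ← sum_coe_sort I]
    have hly : ∀ b ∈ B, ∀ k, ly I M (β b) k = - (b k - b₀ k) := by
      intro b hb k
      unfold ly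
      split_ifs with h
      · rw [hR.2 b hb b₀ hb₀ k h, neg_neg, ← sum_coe_sort Iᶜ]
      · rfl
    have hww : ∀ a ∈ A, ∀ b ∈ B, ww I M c (α a) (β b) = hammingDist a b := by
      intro a ha b hb
      unfold ww
      rw [hammingDist, card_filter]
      push_cast
      apply sum_congr rfl
      intro k _
      rw [hlz a ha, hly b hb, hc]
      unfold th
      have h1 : a₀ k - b₀ k + (a k - a₀ k) + -(b k - b₀ k) = a k - b k := by ring
      simp only [h1, sub_eq_zero, ne_eq]
      by_cases h : a k = b k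
      · simp [h]
      · simp [h]
    have hαinj : Set.InjOn α A := by
      intro a ha a' ha' haa
      funext k
      have h1 := hlz a ha k
      have h2 := hlz a' ha' k
      rw [haa, h2] at h1
      exact (sub_left_inj.1 h1).symm
    have hβinj : Set.InjOn β B := by
      intro b hb b' hb' hbb
      funext k
      have h1 := hly b hb k
      have h2 := hly b' hb' k
      rw [hbb, h2] at h1
      exact (sub_left_inj.1 (neg_inj.1 h1)).symm
    have hα0 : α a₀ = 0 := by
      funext i
      simp [hα]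
    have hβ0 : β b₀ = 0 := by
      funext i
      simp [hβ]
    have key := hg ({i // i ∈ I} → ZMod 3) ({l // l ∈ Iᶜ} → ZMod 3) (ww I M c) (QM (blk I M))
      (A.image α) (B.image β) (fun z => ww I M c z 0) (fun y => ww I M c 0 y - ww I M c 0 0)
      (by
        intro z hz y hy
        obtain ⟨a, ha, rfl⟩ := mem_image.1 hz
        obtain ⟨b, hb, rfl⟩ := mem_image.1 hy
        rw [← hα0, ← hβ0, hww a ha b hb, hww a ha b₀ hb₀, hww a₀ ha₀ b hb, hww a₀ ha₀ b₀ hb₀]
        have := hAB a ha a₀ ha₀ b hb b₀ hb₀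
        omega)
      (fun h h' k k' z y => fourth I M c h h' z k k' y)
    rw [card_image_of_injOn hαinj, card_image_of_injOn hβinj, hcard] at key
    exact key
  · have h0 : (A.card : ℝ) * B.card = 0 := by
      rw [not_and_or, not_nonempty_iff_eq_empty, not_nonempty_iff_eq_empty] at hne
      rcases hne with h | h <;> simp [h]
    rw [h0]
    have key := hg ({i // i ∈ I} → ZMod 3) ({l // l ∈ Iᶜ} → ZMod 3) (ww I M 0) (QM (blk I M))
      ∅ ∅ (fun _ => 0) (fun _ => 0) (by simp)
      (fun h h' k k' z y => fourth I M 0 h h' z k k' y)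
    simpa [Bias] using key

end Helper61.CW.Q3
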