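import Pool.Agent.Helper27.CW.Spec
import Pool.Agent.Helper99.CD.P4

/-!
# CW, part Q8a: cleaning one coordinate of an additive pair
-/

set_option autoImplicit false

namespace Helper61.CW.Q8a

open Finset Function Helper27.CD Helper27.CD.P4

variable {ι : Type} [Fintype ι] [DecidableEq ι]

lemma four : ∀ x y b b' : ZMod 3, x ≠ y →
    (if x ≠ b then 1 else 0) + (if y ≠ b' then 1 else 0) =
      (if x ≠ b' then 1 else 0) + (if y ≠ b then (1 : ℕ) else 0) → b = b' := by decide

theorem aclean_thm : Helper27.CW.S_aclean := by
  intro ι _ _ A B h i hB s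
  have hinj : ∀ a ∈ A, ∀ a' ∈ A, (∀ j, j ≠ i → a j = a' j) → a = a' := by
    intro a ha a' ha' hj
    by_contra hne
    have hi : a i ≠ a' i := by
      intro hi
      apply hne
      funext j
      by_cases hji : j = i
      · rw [hji, hi]
      · exact hj j hji
    apply hB
    intro b hb b' hb'
    have h1 := h a ha a' ha' b hb b' hb'
    rw [dist_split a b i, sum_erase_congr b i hj, dist_split a b' i, sum_erase_congr b' i hj,
      dist_split a' b' i, dist_split a' b i] at h1
    apply four (a i) (a' i) (b i) (b' i) hi
    omega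
  set C := A.filter (fun a => a i ≠ s) with hC
  set D := A.filter (fun a => a i = s) with hD
  have hCinj : ∀ t : ZMod 3, Set.InjOn (fun a : ι → ZMod 3 => update a i t) (C : Set _) := by
    intro t a ha a' ha' haa
    rw [mem_coe, hC, mem_filter] at ha ha'
    apply hinj a ha.1 a' ha'.1
    intro j hji
    have := congrFun haa j
    simpa [update_of_ne hji] using this
  have hIi : ∀ t : ZMod 3, ∀ x ∈ C.image (fun a => update a i t), x i = t := by
    intro t x hx
    obtain ⟨a, -, rfl⟩ := mem_image.1 hx
    simp
  have hDi : ∀ x ∈ D, x i = s := fun x hx => (mem_filter.1 hx).2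
  have h01 : s ≠ s + 1 := l01 s
  have h02 : s ≠ s + 2 := l02 s
  have h12 : s + 1 ≠ s + 2 := l12 s
  have hd1 : Disjoint D (C.image (fun a => update a i (s + 1))) := by
    rw [disjoint_left]
    intro x hx hx'
    exact h01 ((hDi x hx).symm.trans (hIi _ x hx'))
  have hd2 : Disjoint (D ∪ C.image (fun a => update a i (s + 1)))
      (C.image (fun a => update a i (s + 2))) := by
    rw [disjoint_left]
    intro x hx hx'
    rcases mem_union.1 hx with hx | hx
    · exact h02 ((hDi x hx).symm.trans (hIi _ x hx'))
    · exact h12 ((hIi _ x hx).symm.trans (hIi _ x hx'))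
  refine ⟨(D ∪ C.image (fun a => update a i (s + 1))) ∪ C.image (fun a => update a i (s + 2)),
    B.filter (fun b => b i = s), ?_, ?_⟩
  · have hup : ∀ t : ZMod 3, t ≠ s → ∀ x ∈ C.image (fun a => update a i t),
        ∃ a ∈ A, ∀ b ∈ B.filter (fun b => b i = s), hammingDist x b = hammingDist a b := by
      intro t ht x hx
      obtain ⟨a, ha, rfl⟩ := mem_image.1 hx
      have ha' := mem_filter.1 ha
      refine ⟨a, ha'.1, ?_⟩
      intro b hb
      have hbs := (mem_filter.1 hb).2
      rw [dist_split _ b i, dist_split a b i,
        sum_erase_congr b i (fun j hj => update_of_ne hj t a)]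
      have e1 : update a i t i ≠ b i := by rw [hbs]; simpa using ht
      have e2 : a i ≠ b i := by rw [hbs]; exact ha'.2
      rw [if_pos e1, if_pos e2]
    have hex : ∀ x ∈ (D ∪ C.image (fun a => update a i (s + 1))) ∪
        C.image (fun a => update a i (s + 2)),
        ∃ a ∈ A, ∀ b ∈ B.filter (fun b => b i = s), hammingDist x b = hammingDist a b := by
      intro x hx
      rcases mem_union.1 hx with hx | hx
      · rcases mem_union.1 hx with hx | hx
        · exact ⟨x, (mem_filter.1 hx).1, fun _ _ => rfl⟩
        · exact hup _ h01.symm x hx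
      · exact hup _ h02.symm x hx
    intro x hx x' hx' b hb b' hb'
    obtain ⟨a, ha, hab⟩ := hex x hx
    obtain ⟨a', ha', hab'⟩ := hex x' hx'
    rw [hab b hb, hab b' hb', hab' b hb, hab' b' hb']
    exact h a ha a' ha' b (mem_filter.1 hb).1 b' (mem_filter.1 hb').1
  · intro p
    have hW : ∀ t : ZMod 3, t ≠ s → ∀ a ∈ C, ∀ b ∈ B.filter (fun b => b i = s),
        W p (update a i t) b = W p a b := by
      intro t ht a ha b hb
      have hbs := (mem_filter.1 hb).2
      have ha' := (mem_filter.1 ha).2
      unfold W
      apply prod_congr rfl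
      intro j _
      by_cases hj : j = i
      · subst hj
        rw [update_self, hbs, if_neg ht, if_neg ha']
      · rw [update_of_ne hj]
    have hT : ∀ t : ZMod 3, t ≠ s → ∑ x ∈ C.image (fun a => update a i t),
        ∑ b ∈ B.filter (fun b => b i = s), W p x b =
        ∑ a ∈ C, ∑ b ∈ B.filter (fun b => b i = s), W p a b := by
      intro t ht
      rw [sum_image (hCinj t)]
      exact sum_congr rfl fun a ha => sum_congr rfl fun b hb => hW t ht a ha b hb
    have hR : ∑ a ∈ A, ∑ b ∈ B, (if b i = s then (if a i = s then 1 else 2) * W p a b else 0) =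
        ∑ a ∈ D, ∑ b ∈ B.filter (fun b => b i = s), W p a b +
          2 * ∑ a ∈ C, ∑ b ∈ B.filter (fun b => b i = s), W p a b := by
      rw [hD, hC, mul_sum, sum_filter, sum_filter, ← sum_add_distrib]
      apply sum_congr rfl
      intro a _
      by_cases ha : a i = s
      · simp only [ha, ne_eq, not_true_eq_false, if_true, if_false, add_zero, one_mul, sum_filter]
      · simp only [ha, ne_eq, not_false_eq_true, if_true, if_false, zero_add, mul_sum, sum_filter]
        apply sum_congr rfl
        intro b _
        split_ifs <;> ring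
    rw [hR]
    unfold T
    rw [sum_union hd2, sum_union hd1, hT _ h01.symm, hT _ h02.symm]
    ring

end Helper61.CW.Q8a
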