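import Pool.Agent.Helper27.CW.Spec
import Pool.Agent.Helper99.CD.P2

/-!
# CW, part Q8b: the product law
-/

set_option autoImplicit false

namespace Helper61.CW.Q8b

open Finset Function Helper27.CD Helper27.CD.P2

theorem joint_thm : Helper27.CW.S_joint := by
  intro ι _ _ p A B hp0 hp1 hA hB h i s
  obtain ⟨a₀, ha₀⟩ := hA
  obtain ⟨b₀, hb₀⟩ := hB
  have hW : ∀ a b : ι → ZMod 3, 0 < W p a b := fun a b => W_pos hp0 hp1 a b
  set F : (ι → ZMod 3) → ℝ := fun a => W p a b₀ with hF
  set G : (ι → ZMod 3) → ℝ := fun b => W p a₀ b / W p a₀ b₀ with hG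
  have hFG : ∀ a ∈ A, ∀ b ∈ B, W p a b = F a * G b := by
    intro a ha b hb
    have h1 := W_mul (p := p) h ha ha₀ hb hb₀
    rw [hF, hG]
    simp only
    rw [← mul_div_assoc, ← h1]
    field_simp [(hW a₀ b₀).ne']
  have hFpos : ∀ a, 0 < F a := fun a => hW _ _
  have hGpos : ∀ b, 0 < G b := fun b => div_pos (hW _ _) (hW _ _)
  set SF := ∑ a ∈ A, F a with hSF
  set SG := ∑ b ∈ B, G b with hSG
  set Fs := ∑ a ∈ A, (if a i = s then F a else 0) with hFs
  set Gs := ∑ b ∈ B, (if b i = s then G b else 0) with hGs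
  have hSFpos : 0 < SF := sum_pos (fun a _ => hFpos a) ⟨a₀, ha₀⟩
  have hSGpos : 0 < SG := sum_pos (fun b _ => hGpos b) ⟨b₀, hb₀⟩
  have hT : T p A B = SF * SG := by
    unfold T
    rw [hSF, hSG, sum_mul_sum]
    exact sum_congr rfl fun a ha => sum_congr rfl fun b hb => hFG a ha b hb
  have hal : al p A B i s = Fs / SF := by
    unfold al
    have h1 : ∑ a ∈ A, ∑ b ∈ B, (if a i = s then W p a b else 0) = Fs * SG := by
      rw [hFs, hSG, sum_mul_sum]
      apply sum_congr rfl
      intro a ha
      apply sum_congr rfl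
      intro b hb
      by_cases has : a i = s
      · rw [if_pos has, if_pos has, hFG a ha b hb]
      · rw [if_neg has, if_neg has, zero_mul]
    rw [h1, hT]
    field_simp
  have hbe : be p A B i s = Gs / SG := by
    unfold be
    have h1 : ∑ a ∈ A, ∑ b ∈ B, (if b i = s then W p a b else 0) = SF * Gs := by
      rw [hGs, hSF, sum_mul_sum]
      apply sum_congr rfl
      intro a ha
      apply sum_congr rfl
      intro b hb
      by_cases hbs : b i = s
      · rw [if_pos hbs, if_pos hbs, hFG a ha b hb]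
      · rw [if_neg hbs, if_neg hbs, mul_zero]
    rw [h1, hT]
    field_simp
  have hL : (∑ a ∈ A, ∑ b ∈ B, if b i = s then (if a i = s then 1 else 2) * W p a b else 0) =
      (2 * SF - Fs) * Gs := by
    have h0 : 2 * SF - Fs = ∑ a ∈ A, (2 * F a - (if a i = s then F a else 0)) := by
      rw [hSF, hFs, sum_sub_distrib, mul_sum]
    rw [h0, hGs, sum_mul_sum]
    apply sum_congr rfl
    intro a ha
    apply sum_congr rfl
    intro b hb
    by_cases has : a i = s
    · by_cases hbs : b i = s
      · rw [if_pos has, if_pos hbs, if_pos has, if_pos hbs, hFG a ha b hb]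
        ring
      · rw [if_neg hbs, if_neg hbs, mul_zero]
    · by_cases hbs : b i = s
      · rw [if_neg has, if_pos hbs, if_neg has, if_pos hbs, hFG a ha b hb]
        ring
      · rw [if_neg hbs, if_neg hbs, mul_zero]
  rw [hL, hT, hal, hbe]
  field_simp

end Helper61.CW.Q8b
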