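import Pool.Agent.Helper27.CW.Spec

/-!
# CW, part Q3a: four times Cauchy-Schwarz
-/

set_option autoImplicit false

namespace Helper61.CW.Q3a

open Finset Function Helper27.CD Helper27.CW

/-- the character of order nine on the integers -/
noncomputable def e (n : ℤ) : ℂ := ZMod.stdAddChar (n : ZMod 9)

lemma e_add (m n : ℤ) : e (m + n) = e m * e n := by
  unfold e
  rw [Int.cast_add, AddChar.map_add_eq_mul]

lemma e_conj (n : ℤ) : (starRingEnd ℂ) (e n) = e (-n) := by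
  unfold e
  rw [Int.cast_neg, AddChar.map_neg_eq_conj]

lemma e_norm (n : ℤ) : ‖e n‖ = 1 := by
  unfold e
  exact AddChar.norm_apply _ _

lemma cs1 {α : Type*} [Fintype α] (g : α → ℂ) :
    ‖∑ x, g x‖ ^ 2 ≤ (Fintype.card α : ℝ) * ∑ x, ‖g x‖ ^ 2 := by
  calc ‖∑ x, g x‖ ^ 2 ≤ (∑ x, ‖g x‖) ^ 2 := by
        apply pow_le_pow_left₀ (norm_nonneg _)
        exact norm_sum_le _ _
    _ ≤ (Fintype.card α : ℝ) * ∑ x, ‖g x‖ ^ 2 := by
        have := sq_sum_le_card_mul_sum_sq (s := (univ : Finset α)) (f := fun x => ‖g x‖)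
        rw [card_univ] at this
        exact this

lemma cs2 {α β : Type*} [Fintype α] [Fintype β] (g : α → β → ℂ) :
    ‖∑ x, ∑ y, g x y‖ ^ 2 ≤ (Fintype.card α : ℝ) * Fintype.card β * ∑ x, ∑ y, ‖g x y‖ ^ 2 := by
  calc ‖∑ x, ∑ y, g x y‖ ^ 2 ≤ (Fintype.card α : ℝ) * ∑ x, ‖∑ y, g x y‖ ^ 2 := cs1 _
    _ ≤ (Fintype.card α : ℝ) * ∑ x, ((Fintype.card β : ℝ) * ∑ y, ‖g x y‖ ^ 2) := by
        apply mul_le_mul_of_nonneg_left _ (Nat.cast_nonneg _)
        exact sum_le_sum fun x _ => cs1 _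
    _ = _ := by rw [← mul_sum]; ring

lemma cs3 {α β γ : Type*} [Fintype α] [Fintype β] [Fintype γ] (g : α → β → γ → ℂ) :
    ‖∑ x, ∑ y, ∑ z, g x y z‖ ^ 2 ≤ (Fintype.card α : ℝ) * Fintype.card β * Fintype.card γ *
      ∑ x, ∑ y, ∑ z, ‖g x y z‖ ^ 2 := by
  calc ‖∑ x, ∑ y, ∑ z, g x y z‖ ^ 2
      ≤ (Fintype.card α : ℝ) * Fintype.card β * ∑ x, ∑ y, ‖∑ z, g x y z‖ ^ 2 := cs2 _
    _ ≤ (Fintype.card α : ℝ) * Fintype.card β *
        ∑ x, ∑ y, ((Fintype.card γ : ℝ) * ∑ z, ‖g x y z‖ ^ 2) := by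
        apply mul_le_mul_of_nonneg_left _ (by positivity)
        exact sum_le_sum fun x _ => sum_le_sum fun y _ => cs1 _
    _ = _ := by simp_rw [← mul_sum]; ring

lemma nsq {α : Type*} (s : Finset α) (φ : α → ℤ) :
    ((‖∑ z ∈ s, e (φ z)‖ ^ 2 : ℝ) : ℂ) = ∑ z' ∈ s, ∑ z ∈ s, e (φ z' - φ z) := by
  rw [← Complex.normSq_eq_norm_sq, ← Complex.mul_conj, map_sum, sum_mul_sum]
  apply sum_congr rfl
  intro z' _
  apply sum_congr rfl
  intro z _
  rw [e_conj, ← e_add, sub_eq_add_neg]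

section

variable {V1 V2 : Type} [AddCommGroup V1] [AddCommGroup V2] [Fintype V1] [Fintype V2]

/-- the sum of the character over the whole box -/
noncomputable def X (Φ : V1 → V2 → ℤ) : ℂ := ∑ z, ∑ y, e (Φ z y)

/-- the sum of squares of the inner sums over the first variable -/
noncomputable def U1 (Φ : V1 → V2 → ℤ) : ℝ := ∑ y, ‖∑ z, e (Φ z y)‖ ^ 2

/-- the sum of squares of the inner sums over the second variable -/
noncomputable def U2 (Φ : V1 → V2 → ℤ) : ℝ := ∑ z, ‖∑ y, e (Φ z y)‖ ^ 2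

lemma U1_eq (Φ : V1 → V2 → ℤ) : ((U1 Φ : ℝ) : ℂ) = ∑ h, X (D1 h Φ) := by
  unfold U1 X
  rw [Complex.ofReal_sum]
  simp_rw [nsq]
  calc ∑ y, ∑ z', ∑ z, e (Φ z' y - Φ z y) = ∑ y, ∑ z, ∑ z', e (Φ z' y - Φ z y) := by
        exact sum_congr rfl fun y _ => sum_comm
    _ = ∑ y, ∑ z, ∑ h, e (D1 h Φ z y) := by
        apply sum_congr rfl
        intro y _
        apply sum_congr rfl
        intro z _
        rw [← Equiv.sum_comp (Equiv.addLeft z) (fun z' => e (Φ z' y - Φ z y))]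
        rfl
    _ = ∑ y, ∑ h, ∑ z, e (D1 h Φ z y) := sum_congr rfl fun y _ => sum_comm
    _ = ∑ h, ∑ y, ∑ z, e (D1 h Φ z y) := sum_comm
    _ = ∑ h, ∑ z, ∑ y, e (D1 h Φ z y) := sum_congr rfl fun h _ => sum_comm

lemma U2_eq (Φ : V1 → V2 → ℤ) : ((U2 Φ : ℝ) : ℂ) = ∑ k, X (D2 k Φ) := by
  unfold U2 X
  rw [Complex.ofReal_sum]
  simp_rw [nsq]
  calc ∑ z, ∑ y', ∑ y, e (Φ z y' - Φ z y) = ∑ z, ∑ y, ∑ y', e (Φ z y' - Φ z y) := by
        exact sum_congr rfl fun y _ => sum_comm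
    _ = ∑ z, ∑ y, ∑ k, e (D2 k Φ z y) := by
        apply sum_congr rfl
        intro z _
        apply sum_congr rfl
        intro y _
        rw [← Equiv.sum_comp (Equiv.addLeft y) (fun y' => e (Φ z y' - Φ z y))]
        rfl
    _ = ∑ z, ∑ k, ∑ y, e (D2 k Φ z y) := sum_congr rfl fun z _ => sum_comm
    _ = ∑ k, ∑ z, ∑ y, e (D2 k Φ z y) := sum_comm

omit [AddCommGroup V1] [AddCommGroup V2] in
lemma X_le_U1 (Φ : V1 → V2 → ℤ) : ‖X Φ‖ ^ 2 ≤ (Fintype.card V2 : ℝ) * U1 Φ := by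
  unfold X U1
  rw [sum_comm]
  exact cs1 _

omit [AddCommGroup V1] [AddCommGroup V2] in
lemma X_le_U2 (Φ : V1 → V2 → ℤ) : ‖X Φ‖ ^ 2 ≤ (Fintype.card V1 : ℝ) * U2 Φ := by
  unfold X U2
  exact cs1 _

/-- the box sum -/
noncomputable def E4 (w : V1 → V2 → ℤ) : ℝ := ∑ y, ∑ y', ‖∑ z, e (w z y' - w z y)‖ ^ 2

lemma E4_eq (w : V1 → V2 → ℤ) : ((E4 w : ℝ) : ℂ) = ∑ h, ∑ k, X (D2 k (D1 h w)) := by
  unfold E4 X
  rw [Complex.ofReal_sum]
  simp_rw [Complex.ofReal_sum, nsq]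
  have h1 : ∀ y z : V2, ∀ x x' : V1, e (w x' z - w x' y - (w x z - w x y)) =
      e (w x' z - w x z - (w x' y - w x y)) := by
    intro y z x x'
    congr 1
    ring
  calc ∑ y, ∑ y', ∑ z', ∑ z, e (w z' y' - w z' y - (w z y' - w z y))
      = ∑ y, ∑ y', ∑ z, ∑ z', e (w z' y' - w z' y - (w z y' - w z y)) :=
        sum_congr rfl fun y _ => sum_congr rfl fun y' _ => sum_comm
    _ = ∑ y, ∑ k, ∑ z, ∑ h, e (D2 k (D1 h w) z y) := by
        apply sum_congr rfl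
        intro y _
        rw [← Equiv.sum_comp (Equiv.addLeft y)
          (fun y' => ∑ z, ∑ z', e (w z' y' - w z' y - (w z y' - w z y)))]
        apply sum_congr rfl
        intro k _
        apply sum_congr rfl
        intro z _
        rw [← Equiv.sum_comp (Equiv.addLeft z)
          (fun z' => e (w z' (Equiv.addLeft y k) - w z' y - (w z (Equiv.addLeft y k) - w z y)))]
        apply sum_congr rfl
        intro h _
        rw [h1]
        rfl
    _ = ∑ y, ∑ z, ∑ k, ∑ h, e (D2 k (D1 h w) z y) := sum_congr rfl fun y _ => sum_comm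
    _ = ∑ z, ∑ y, ∑ k, ∑ h, e (D2 k (D1 h w) z y) := sum_comm
    _ = ∑ z, ∑ y, ∑ h, ∑ k, e (D2 k (D1 h w) z y) :=
        sum_congr rfl fun z _ => sum_congr rfl fun y _ => sum_comm
    _ = ∑ z, ∑ h, ∑ y, ∑ k, e (D2 k (D1 h w) z y) := sum_congr rfl fun z _ => sum_comm
    _ = ∑ h, ∑ z, ∑ y, ∑ k, e (D2 k (D1 h w) z y) := sum_comm
    _ = ∑ h, ∑ z, ∑ k, ∑ y, e (D2 k (D1 h w) z y) :=
        sum_congr rfl fun h _ => sum_congr rfl fun z _ => sum_comm
    _ = ∑ h, ∑ k, ∑ z, ∑ y, e (D2 k (D1 h w) z y) := sum_congr rfl fun h _ => sum_comm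

omit [AddCommGroup V1] [AddCommGroup V2] in
lemma first_step (w : V1 → V2 → ℤ) (A : Finset V1) (B : Finset V2) (f : V1 → ℤ) (g : V2 → ℤ)
    (hw : ∀ z ∈ A, ∀ y ∈ B, w z y = f z + g y) :
    ((A.card : ℝ) * B.card) ^ 2 ≤ E4 w := by
  classical
  have hE0 : 0 ≤ E4 w := by
    unfold E4
    exact sum_nonneg fun y _ => sum_nonneg fun y' _ => by positivity
  by_cases hne : (A.card : ℝ) * B.card = 0
  · rw [hne]
    simpa using hE0
  set R : ℝ := ∑ z, ‖∑ y ∈ B, e (w z y - g y)‖ ^ 2 with hR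
  have hR0 : 0 ≤ R := sum_nonneg fun z _ => by positivity
  -- first Cauchy-Schwarz
  have h1 : ((A.card : ℝ) * B.card) ^ 2 ≤ A.card * R := by
    have h2 : ∀ z ∈ A, (B.card : ℝ) = ‖∑ y ∈ B, e (w z y - g y)‖ := by
      intro z hz
      have h3 : ∑ y ∈ B, e (w z y - g y) = B.card * e (f z) := by
        rw [← nsmul_eq_mul, ← sum_const]
        apply sum_congr rfl
        intro y hy
        rw [hw z hz y hy, add_sub_cancel_right]
      rw [h3, norm_mul, e_norm, mul_one]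
      simp
    have h3 : (A.card : ℝ) * (B.card : ℝ) ^ 2 ≤ R := by
      calc (A.card : ℝ) * (B.card : ℝ) ^ 2 = ∑ z ∈ A, ‖∑ y ∈ B, e (w z y - g y)‖ ^ 2 := by
            rw [← nsmul_eq_mul, ← sum_const]
            apply sum_congr rfl
            intro z hz
            rw [h2 z hz]
        _ ≤ R := by
            rw [hR]
            exact sum_le_sum_of_subset_of_nonneg (subset_univ _) fun z _ _ => by positivity
    calc ((A.card : ℝ) * B.card) ^ 2 = A.card * ((A.card : ℝ) * (B.card : ℝ) ^ 2) := by ring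
      _ ≤ A.card * R := mul_le_mul_of_nonneg_left h3 (Nat.cast_nonneg _)
  -- second Cauchy-Schwarz
  have h4 : R ^ 2 ≤ (B.card : ℝ) ^ 2 * E4 w := by
    have h5 : ((R : ℝ) : ℂ) = ∑ y ∈ B, ∑ y' ∈ B, e (g y - g y') * ∑ z, e (w z y' - w z y) := by
      rw [hR, Complex.ofReal_sum]
      simp_rw [nsq, mul_sum]
      rw [sum_comm]
      rw [sum_comm (s := B) (t := B)]
      apply sum_congr rfl
      intro y' _
      rw [sum_comm]
      apply sum_congr rfl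
      intro y _
      apply sum_congr rfl
      intro z _
      rw [← e_add]
      congr 1
      ring
    have h6 : R ≤ ∑ y ∈ B, ∑ y' ∈ B, ‖∑ z, e (w z y' - w z y)‖ := by
      have h7 : R = ‖((R : ℝ) : ℂ)‖ := by
        rw [Complex.norm_real, Real.norm_of_nonneg hR0]
      rw [h7, h5]
      refine (norm_sum_le _ _).trans (sum_le_sum fun y _ => ?_)
      refine (norm_sum_le _ _).trans (sum_le_sum fun y' _ => ?_)
      rw [norm_mul, e_norm, one_mul]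
    calc R ^ 2 ≤ (∑ y ∈ B, ∑ y' ∈ B, ‖∑ z, e (w z y' - w z y)‖) ^ 2 :=
          pow_le_pow_left₀ hR0 h6 2
      _ ≤ B.card * ∑ y ∈ B, (∑ y' ∈ B, ‖∑ z, e (w z y' - w z y)‖) ^ 2 :=
          sq_sum_le_card_mul_sum_sq
      _ ≤ B.card * ∑ y ∈ B, (B.card * ∑ y' ∈ B, ‖∑ z, e (w z y' - w z y)‖ ^ 2) := by
          apply mul_le_mul_of_nonneg_left _ (Nat.cast_nonneg _)
          exact sum_le_sum fun y _ => sq_sum_le_card_mul_sum_sq
      _ = (B.card : ℝ) ^ 2 * ∑ y ∈ B, ∑ y' ∈ B, ‖∑ z, e (w z y' - w z y)‖ ^ 2 := by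
          rw [← mul_sum]
          ring
      _ ≤ (B.card : ℝ) ^ 2 * E4 w := by
          apply mul_le_mul_of_nonneg_left _ (by positivity)
          unfold E4
          calc ∑ y ∈ B, ∑ y' ∈ B, ‖∑ z, e (w z y' - w z y)‖ ^ 2
              ≤ ∑ y ∈ B, ∑ y', ‖∑ z, e (w z y' - w z y)‖ ^ 2 := by
                apply sum_le_sum
                intro y _
                exact sum_le_sum_of_subset_of_nonneg (subset_univ _) fun z _ _ => by positivity
            _ ≤ ∑ y, ∑ y', ‖∑ z, e (w z y' - w z y)‖ ^ 2 :=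
                sum_le_sum_of_subset_of_nonneg (subset_univ _)
                  fun z _ _ => sum_nonneg fun y' _ => by positivity
  -- conclusion
  have hpos : 0 < ((A.card : ℝ) * B.card) ^ 2 := by positivity
  have h8 : (((A.card : ℝ) * B.card) ^ 2) ^ 2 ≤ ((A.card : ℝ) * B.card) ^ 2 * E4 w := by
    calc (((A.card : ℝ) * B.card) ^ 2) ^ 2 ≤ ((A.card : ℝ) * R) ^ 2 :=
          pow_le_pow_left₀ hpos.le h1 2
      _ = (A.card : ℝ) ^ 2 * R ^ 2 := by ring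
      _ ≤ (A.card : ℝ) ^ 2 * ((B.card : ℝ) ^ 2 * E4 w) :=
          mul_le_mul_of_nonneg_left h4 (by positivity)
      _ = _ := by ring
  rw [sq] at h8
  exact le_of_mul_le_mul_left h8 hpos

end

lemma re_e3 (x : ZMod 3) (n : ℤ) (h : (n : ZMod 9) = 3 * (x.val : ZMod 9)) :
    (e n).re = chi x := by
  have h1 : e n = Complex.exp (2 * Real.pi * Complex.I * ((3 * (x.val : ℤ) : ℤ) : ℂ) / (9 : ℕ)) := by
    unfold e
    rw [← ZMod.stdAddChar_coe, h]
    push_cast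
    rfl
  have h2 : (2 * Real.pi * Complex.I * ((3 * (x.val : ℤ) : ℤ) : ℂ) / (9 : ℕ)) =
      ((2 * Real.pi * x.val / 3 : ℝ) : ℂ) * Complex.I := by
    push_cast
    ring
  rw [h1, h2, Complex.exp_ofReal_mul_I_re]
  unfold chi
  have h3 : ∀ x : ZMod 3, x = 0 ∨ x = 1 ∨ x = 2 := by decide
  rcases h3 x with rfl | rfl | rfl
  · simp
  · have h4 : (1 : ZMod 3).val = 1 := rfl
    rw [h4, if_neg (by decide)]
    have h5 : (2 * Real.pi * ((1 : ℕ) : ℝ) / 3) = Real.pi - Real.pi / 3 := by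
      push_cast
      ring
    rw [h5, Real.cos_pi_sub, Real.cos_pi_div_three]
    norm_num
  · have h4 : (2 : ZMod 3).val = 2 := rfl
    rw [h4, if_neg (by decide)]
    have h5 : (2 * Real.pi * ((2 : ℕ) : ℝ) / 3) = Real.pi / 3 + Real.pi := by
      push_cast
      ring
    rw [h5, Real.cos_add_pi, Real.cos_pi_div_three]
    norm_num

theorem gcs_thm : S_gcs := by
  intro V1 V2 _ _ _ _ w Q A B f g hw hQ
  have h1 := first_step w A B f g hw
  set v1 : ℝ := (Fintype.card V1 : ℝ) with hv1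
  set v2 : ℝ := (Fintype.card V2 : ℝ) with hv2
  have hv1p : 0 < v1 := by
    rw [hv1]
    exact_mod_cast Fintype.card_pos
  have hv2p : 0 < v2 := by
    rw [hv2]
    exact_mod_cast Fintype.card_pos
  set E2 : ℝ := ∑ h, ∑ k, U1 (D2 k (D1 h w)) with hE2
  have hU1 : ∀ Φ : V1 → V2 → ℤ, 0 ≤ U1 Φ := fun Φ => by
    unfold U1
    exact sum_nonneg fun y _ => by positivity
  have hU2 : ∀ Φ : V1 → V2 → ℤ, 0 ≤ U2 Φ := fun Φ => by
    unfold U2
    exact sum_nonneg fun y _ => by positivity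
  have hE2p : 0 ≤ E2 := sum_nonneg fun h _ => sum_nonneg fun k _ => hU1 _
  have hE4p : 0 ≤ E4 w := le_trans (by positivity) h1
  have h2 : E4 w ^ 2 ≤ v1 * v2 ^ 2 * E2 := by
    have h3 : E4 w = ‖((E4 w : ℝ) : ℂ)‖ := by
      rw [Complex.norm_real, Real.norm_of_nonneg hE4p]
    rw [h3, E4_eq]
    calc ‖∑ h, ∑ k, X (D2 k (D1 h w))‖ ^ 2
        ≤ v1 * v2 * ∑ h, ∑ k, ‖X (D2 k (D1 h w))‖ ^ 2 := cs2 _
      _ ≤ v1 * v2 * ∑ h, ∑ k, (v2 * U1 (D2 k (D1 h w))) := by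
          apply mul_le_mul_of_nonneg_left _ (by positivity)
          exact sum_le_sum fun h _ => sum_le_sum fun k _ => X_le_U1 _
      _ = v1 * v2 ^ 2 * E2 := by
          simp_rw [← mul_sum]
          rw [hE2]
          ring
  set E3 : ℝ := ∑ h, ∑ k, ∑ h', U2 (D1 h' (D2 k (D1 h w))) with hE3
  have h4 : E2 ^ 2 ≤ v1 ^ 3 * v2 * E3 := by
    have h3 : E2 = ‖((E2 : ℝ) : ℂ)‖ := by
      rw [Complex.norm_real, Real.norm_of_nonneg hE2p]
    have h5 : ((E2 : ℝ) : ℂ) = ∑ h, ∑ k, ∑ h', X (D1 h' (D2 k (D1 h w))) := by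
      rw [hE2, Complex.ofReal_sum]
      apply sum_congr rfl
      intro h _
      rw [Complex.ofReal_sum]
      apply sum_congr rfl
      intro k _
      rw [U1_eq]
    rw [h3, h5]
    calc ‖∑ h, ∑ k, ∑ h', X (D1 h' (D2 k (D1 h w)))‖ ^ 2
        ≤ v1 * v2 * v1 * ∑ h, ∑ k, ∑ h', ‖X (D1 h' (D2 k (D1 h w)))‖ ^ 2 := cs3 _
      _ ≤ v1 * v2 * v1 * ∑ h, ∑ k, ∑ h', (v1 * U2 (D1 h' (D2 k (D1 h w)))) := by
          apply mul_le_mul_of_nonneg_left _ (by positivity)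
          exact sum_le_sum fun h _ => sum_le_sum fun k _ => sum_le_sum fun h' _ => X_le_U2 _
      _ = v1 ^ 3 * v2 * E3 := by
          simp_rw [← mul_sum]
          rw [hE3]
          ring
  have h6 : E3 = v1 * v2 * ∑ h, ∑ h', ∑ k, ∑ k', chi (Q h h' k k') := by
    have h7 : ((E3 : ℝ) : ℂ) = ∑ h, ∑ k, ∑ h', ∑ k', X (D2 k' (D1 h' (D2 k (D1 h w)))) := by
      rw [hE3]
      simp only [Complex.ofReal_sum, U2_eq]
    have h8 : ∀ h k h' k', (X (D2 k' (D1 h' (D2 k (D1 h w))))).re = v1 * v2 * chi (Q h h' k k') := by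
      intro h k h' k'
      unfold X
      simp only [Complex.re_sum]
      have h9 : ∀ z y, (e (D2 k' (D1 h' (D2 k (D1 h w))) z y)).re = chi (Q h h' k k') :=
        fun z y => re_e3 _ _ (hQ h h' k k' z y)
      simp_rw [h9, sum_const, card_univ, nsmul_eq_mul]
      rw [hv1, hv2]
      ring
    have h10 := congrArg Complex.re h7
    rw [Complex.ofReal_re] at h10
    simp only [Complex.re_sum, h8] at h10
    rw [h10]
    simp_rw [← mul_sum]
    congr 1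
    apply sum_congr rfl
    intro h _
    rw [sum_comm]
  have hfin : ((A.card : ℝ) * B.card) ^ 8 ≤ v1 ^ 6 * v2 ^ 6 *
      ∑ h, ∑ h', ∑ k, ∑ k', chi (Q h h' k k') := by
    calc ((A.card : ℝ) * B.card) ^ 8 = (((A.card : ℝ) * B.card) ^ 2) ^ 4 := by ring
      _ ≤ E4 w ^ 4 := pow_le_pow_left₀ (by positivity) h1 4
      _ = (E4 w ^ 2) ^ 2 := by ring
      _ ≤ (v1 * v2 ^ 2 * E2) ^ 2 := pow_le_pow_left₀ (by positivity) h2 2
      _ = v1 ^ 2 * v2 ^ 4 * E2 ^ 2 := by ring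
      _ ≤ v1 ^ 2 * v2 ^ 4 * (v1 ^ 3 * v2 * E3) := mul_le_mul_of_nonneg_left h4 (by positivity)
      _ = _ := by rw [h6]; ring
  unfold GB
  rw [← hv1, ← hv2, div_pow, div_le_div_iff₀ (by positivity) (by positivity)]
  calc ((A.card : ℝ) * B.card) ^ 8 * (v1 * v1 * v2 * v2)
      ≤ (v1 ^ 6 * v2 ^ 6 * ∑ h, ∑ h', ∑ k, ∑ k', chi (Q h h' k k')) * (v1 * v1 * v2 * v2) :=
        mul_le_mul_of_nonneg_right hfin (by positivity)
    _ = _ := by ring

end Helper61.CW.Q3a
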